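import Pool.Agent.Helper94.GA.Goals

/-!
Packet INFO of `Helper94/GA/Goals.lean`: the information of one bit.
-/

namespace Pool.Agent.Helper31.GA

open Finset
open Pool.Agent.Helper94.GA

universe u

/-- `log (1 + m) - log (1 - m) ≥ 2 m` on `[0, 1)`. -/
theorem two_mul_le_log_sub_log {m : ℝ} (h0 : 0 ≤ m) (h1 : m < 1) :
    2 * m ≤ Real.log (1 + m) - Real.log (1 - m) := by
  have h := Real.hasSum_log_sub_log_of_abs_lt_one (x := m) (by rw [abs_of_nonneg h0]; exact h1)
  have h2 := h.summable.sum_le_tsum (range 1) (fun i _ => by positivity)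
  rw [h.tsum_eq] at h2
  simpa using h2

/-- The scalar inequality on `[0, 1]`. -/
theorem scalar_nonneg {m : ℝ} (h0 : 0 ≤ m) (h1 : m ≤ 1) :
    m ^ 2 ≤ (1 + m) * Real.log (1 + m) + (1 - m) * Real.log (1 - m) := by
  have hmono : MonotoneOn (fun m : ℝ => (1 + m) * Real.log (1 + m) +
      (1 - m) * Real.log (1 - m) - m ^ 2) (Set.Icc 0 1) := by
    apply monotoneOn_of_deriv_nonneg (convex_Icc 0 1)
    · have hc := Real.continuous_mul_log
      have e1 : Continuous (fun m : ℝ => (1 + m) * Real.log (1 + m)) :=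
        hc.comp (continuous_const.add continuous_id)
      have e2 : Continuous (fun m : ℝ => (1 - m) * Real.log (1 - m)) :=
        hc.comp (continuous_const.sub continuous_id)
      exact ((e1.add e2).sub (continuous_id.pow 2)).continuousOn
    · intro x hx
      rw [interior_Icc] at hx
      have hd : HasDerivAt (fun m : ℝ => (1 + m) * Real.log (1 + m) +
          (1 - m) * Real.log (1 - m) - m ^ 2)
          ((1 * Real.log (1 + x) + (1 + x) * (1 / (1 + x))) +
            ((-1) * Real.log (1 - x) + (1 - x) * ((-1) / (1 - x))) - 2 * x) x := by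
        have g1 : HasDerivAt (fun m : ℝ => 1 + m) 1 x := by
          simpa using (hasDerivAt_id x).const_add 1
        have g2 : HasDerivAt (fun m : ℝ => 1 - m) (-1) x := by
          simpa using (hasDerivAt_id x).const_sub 1
        have g3 := g1.mul (g1.log (by linarith [hx.1]))
        have g4 := g2.mul (g2.log (by linarith [hx.2]))
        have g5 : HasDerivAt (fun m : ℝ => m ^ 2) (2 * x) x := by
          simpa using hasDerivAt_pow 2 x
        exact (g3.add g4).sub g5
      exact hd.differentiableAt.differentiableWithinAt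
    · intro x hx
      rw [interior_Icc] at hx
      have hd : HasDerivAt (fun m : ℝ => (1 + m) * Real.log (1 + m) +
          (1 - m) * Real.log (1 - m) - m ^ 2)
          ((1 * Real.log (1 + x) + (1 + x) * (1 / (1 + x))) +
            ((-1) * Real.log (1 - x) + (1 - x) * ((-1) / (1 - x))) - 2 * x) x := by
        have g1 : HasDerivAt (fun m : ℝ => 1 + m) 1 x := by
          simpa using (hasDerivAt_id x).const_add 1
        have g2 : HasDerivAt (fun m : ℝ => 1 - m) (-1) x := by
          simpa using (hasDerivAt_id x).const_sub 1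
        have g3 := g1.mul (g1.log (by linarith [hx.1]))
        have g4 := g2.mul (g2.log (by linarith [hx.2]))
        have g5 : HasDerivAt (fun m : ℝ => m ^ 2) (2 * x) x := by
          simpa using hasDerivAt_pow 2 x
        exact (g3.add g4).sub g5
      rw [hd.deriv]
      have h3 := two_mul_le_log_sub_log hx.1.le hx.2
      have h4 : (1 + x) * (1 / (1 + x)) = 1 := by
        field_simp [show (1 + x) ≠ 0 by linarith [hx.1]]
      have h5 : (1 - x) * ((-1) / (1 - x)) = -1 := by
        have : (1 - x) ≠ 0 := by linarith [hx.2]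
        field_simp
      rw [h4, h5]
      linarith
  have h := hmono (Set.left_mem_Icc.2 zero_le_one) ⟨h0, h1⟩ h0
  simp only [add_zero, Real.log_one, mul_zero, sub_zero, ne_eq, OfNat.ofNat_ne_zero,
    not_false_eq_true, zero_pow, sub_self] at h
  linarith

/-- The scalar inequality on `[-1, 1]`. -/
theorem scalar {m : ℝ} (h0 : -1 ≤ m) (h1 : m ≤ 1) :
    m ^ 2 ≤ (1 + m) * Real.log (1 + m) + (1 - m) * Real.log (1 - m) := by
  rcases le_total 0 m with h | h
  · exact scalar_nonneg h h1
  · have h2 := scalar_nonneg (m := -m) (by linarith) (by linarith)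
    have e1 : 1 + -m = 1 - m := by ring
    have e2 : 1 - -m = 1 + m := by ring
    rw [e1, e2] at h2
    have e3 : (-m) ^ 2 = m ^ 2 := by ring
    rw [e3] at h2
    linarith

/-- The inequality for one fibre. -/
theorem fibre_ineq {a b : ℝ} (ha : 0 ≤ a) (hb : 0 ≤ b) (hab : 0 < a + b) :
    (a - b) ^ 2 / (2 * (a + b)) ≤
      a * Real.log (2 * a / (a + b)) + b * Real.log (2 * b / (a + b)) := by
  have h := scalar (m := (a - b) / (a + b)) (by rw [le_div_iff₀ hab]; linarith)
    (by rw [div_le_iff₀ hab]; linarith)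
  have e1 : 1 + (a - b) / (a + b) = 2 * a / (a + b) := by
    field_simp
    ring
  have e2 : 1 - (a - b) / (a + b) = 2 * b / (a + b) := by
    field_simp
    ring
  rw [e1, e2] at h
  have h3 := mul_le_mul_of_nonneg_left h (show 0 ≤ (a + b) / 2 by positivity)
  have e3 : (a + b) / 2 * ((a - b) / (a + b)) ^ 2 = (a - b) ^ 2 / (2 * (a + b)) := by
    field_simp
  have e4 : (a + b) / 2 * (2 * a / (a + b) * Real.log (2 * a / (a + b)) +
      2 * b / (a + b) * Real.log (2 * b / (a + b))) =
      a * Real.log (2 * a / (a + b)) + b * Real.log (2 * b / (a + b)) := by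
    field_simp
  rw [e3, e4] at h3
  exact h3

theorem INFO : INFO_stmt.{u} := by
  classical
  intro Ω 𝒴 _ b Y f
  -- the numbers of elements of the fibres
  let N1 : 𝒴 → ℝ := fun y => ((univ.filter fun ω => Y ω = y ∧ b ω = true).card : ℝ)
  let N0 : 𝒴 → ℝ := fun y => ((univ.filter fun ω => Y ω = y ∧ b ω = false).card : ℝ)
  have hN1 : ∀ y, 0 ≤ N1 y := fun y => Nat.cast_nonneg _
  have hN0 : ∀ y, 0 ≤ N0 y := fun y => Nat.cast_nonneg _
  have hdisj : ∀ y, (univ.filter fun ω => Y ω = y ∧ b ω = true) ∪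
      (univ.filter fun ω => Y ω = y ∧ b ω = false) = univ.filter fun ω => Y ω = y := by
    intro y
    ext ω
    simp only [mem_union, mem_filter, mem_univ, true_and]
    cases b ω <;> simp
  have hdisj' : ∀ y, Disjoint (univ.filter fun ω => Y ω = y ∧ b ω = true)
      (univ.filter fun ω => Y ω = y ∧ b ω = false) := by
    intro y
    rw [Finset.disjoint_left]
    intro ω h1 h2
    simp only [mem_filter, mem_univ, true_and] at h1 h2
    rw [h1.2] at h2
    exact absurd h2.2 (by simp)
  have hsplit : ∀ (y : 𝒴) (G : Ω → ℝ), ∑ ω ∈ univ.filter (fun ω => Y ω = y), G ω =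
      ∑ ω ∈ univ.filter (fun ω => Y ω = y ∧ b ω = true), G ω +
      ∑ ω ∈ univ.filter (fun ω => Y ω = y ∧ b ω = false), G ω := by
    intro y G
    rw [← hdisj y, Finset.sum_union (hdisj' y)]
  have hsplitC : ∀ (y : 𝒴) (G : Ω → ℂ), ∑ ω ∈ univ.filter (fun ω => Y ω = y), G ω =
      ∑ ω ∈ univ.filter (fun ω => Y ω = y ∧ b ω = true), G ω +
      ∑ ω ∈ univ.filter (fun ω => Y ω = y ∧ b ω = false), G ω := by
    intro y G
    rw [← hdisj y, Finset.sum_union (hdisj' y)]
  have hcard : ∀ y, (((univ.filter fun ω => Y ω = y).card : ℕ) : ℝ) = N1 y + N0 y := by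
    intro y
    rw [← hdisj y, Finset.card_union_of_disjoint (hdisj' y)]
    push_cast
    rfl
  have hmaps : ∀ ω ∈ (univ : Finset Ω), Y ω ∈ univ.image Y := fun ω hω => mem_image_of_mem Y hω
  have hpos : ∀ y ∈ univ.image Y, 0 < N1 y + N0 y := by
    intro y hy
    rw [← hcard y]
    obtain ⟨ω, _, h⟩ := mem_image.1 hy
    exact_mod_cast Finset.card_pos.2 ⟨ω, by simp [h]⟩
  -- the left-hand side of the entropy
  have hL : ∑ y ∈ univ.image Y, (N1 y - N0 y) ^ 2 / (2 * (N1 y + N0 y)) ≤
      ∑ ω, Real.log (2 * (Nat.card {ω' // Y ω' = Y ω ∧ b ω' = b ω} : ℝ) /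
        Nat.card {ω' // Y ω' = Y ω}) := by
    rw [← Finset.sum_fiberwise_of_maps_to hmaps]
    refine Finset.sum_le_sum fun y hy => ?_
    rw [hsplit y]
    have e0 : ∀ ω, Y ω = y → (Nat.card {ω' // Y ω' = Y ω} : ℝ) = N1 y + N0 y := by
      intro ω h
      rw [← hcard y, Nat.card_eq_fintype_card, Fintype.card_subtype, h]
    have e1 : ∑ ω ∈ univ.filter (fun ω => Y ω = y ∧ b ω = true),
        Real.log (2 * (Nat.card {ω' // Y ω' = Y ω ∧ b ω' = b ω} : ℝ) /
          Nat.card {ω' // Y ω' = Y ω}) = N1 y * Real.log (2 * N1 y / (N1 y + N0 y)) := by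
      rw [Finset.sum_congr rfl (g := fun _ => Real.log (2 * N1 y / (N1 y + N0 y)))]
      · simp [N1]
      · intro ω hω
        simp only [mem_filter, mem_univ, true_and] at hω
        rw [e0 ω hω.1, hω.1, hω.2, Nat.card_eq_fintype_card, Fintype.card_subtype]
    have e2 : ∑ ω ∈ univ.filter (fun ω => Y ω = y ∧ b ω = false),
        Real.log (2 * (Nat.card {ω' // Y ω' = Y ω ∧ b ω' = b ω} : ℝ) /
          Nat.card {ω' // Y ω' = Y ω}) = N0 y * Real.log (2 * N0 y / (N1 y + N0 y)) := by
      rw [Finset.sum_congr rfl (g := fun _ => Real.log (2 * N0 y / (N1 y + N0 y)))]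
      · simp [N0]
      · intro ω hω
        simp only [mem_filter, mem_univ, true_and] at hω
        rw [e0 ω hω.1, hω.1, hω.2, Nat.card_eq_fintype_card, Fintype.card_subtype]
    rw [e1, e2]
    exact fibre_ineq (hN1 y) (hN0 y) (hpos y hy)
  -- the test function
  have hA : ∑ ω, (if b ω then (1 : ℂ) else -1) * f (Y ω) =
      ∑ y ∈ univ.image Y, ((N1 y - N0 y : ℝ) : ℂ) * f y := by
    rw [← Finset.sum_fiberwise_of_maps_to hmaps]
    refine Finset.sum_congr rfl fun y _ => ?_
    rw [hsplitC y]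
    rw [Finset.sum_congr rfl (g := fun _ => f y) (s₁ := univ.filter
      (fun ω => Y ω = y ∧ b ω = true)), Finset.sum_congr rfl (g := fun _ => -f y)
      (s₁ := univ.filter (fun ω => Y ω = y ∧ b ω = false))]
    · simp only [sum_const, nsmul_eq_mul, N1, N0]
      push_cast
      ring
    · intro ω hω
      simp only [mem_filter, mem_univ, true_and] at hω
      rw [hω.1, hω.2]
      simp
    · intro ω hω
      simp only [mem_filter, mem_univ, true_and] at hω
      rw [hω.1, hω.2]
      simp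
  have hB : ∑ ω, ‖f (Y ω)‖ ^ 2 = ∑ y ∈ univ.image Y, (N1 y + N0 y) * ‖f y‖ ^ 2 := by
    rw [← Finset.sum_fiberwise_of_maps_to hmaps]
    refine Finset.sum_congr rfl fun y _ => ?_
    rw [Finset.sum_congr rfl (g := fun _ => ‖f y‖ ^ 2)]
    · rw [sum_const, nsmul_eq_mul, hcard y]
    · intro ω hω
      simp only [mem_filter, mem_univ, true_and] at hω
      rw [hω]
  have hCS : ‖∑ y ∈ univ.image Y, ((N1 y - N0 y : ℝ) : ℂ) * f y‖ ^ 2 ≤
      (∑ y ∈ univ.image Y, (N1 y - N0 y) ^ 2 / (N1 y + N0 y)) *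
        ∑ y ∈ univ.image Y, (N1 y + N0 y) * ‖f y‖ ^ 2 := by
    have h1 : ‖∑ y ∈ univ.image Y, ((N1 y - N0 y : ℝ) : ℂ) * f y‖ ≤
        ∑ y ∈ univ.image Y, |N1 y - N0 y| * ‖f y‖ := by
      refine (norm_sum_le _ _).trans (le_of_eq (Finset.sum_congr rfl fun y _ => ?_))
      rw [norm_mul, Complex.norm_real, Real.norm_eq_abs]
    refine (pow_le_pow_left₀ (norm_nonneg _) h1 2).trans ?_
    refine Finset.sum_sq_le_sum_mul_sum_of_sq_eq_mul _ (fun y hy => ?_) (fun y hy => ?_)
      (fun y hy => ?_)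
    · exact div_nonneg (sq_nonneg _) (hpos y hy).le
    · exact mul_nonneg (hpos y hy).le (sq_nonneg _)
    · have := (hpos y hy).ne'
      rw [mul_pow, sq_abs]
      field_simp
  have hhalf : ∑ y ∈ univ.image Y, (N1 y - N0 y) ^ 2 / (2 * (N1 y + N0 y)) =
      (1 / 2) * ∑ y ∈ univ.image Y, (N1 y - N0 y) ^ 2 / (N1 y + N0 y) := by
    rw [Finset.mul_sum]
    refine Finset.sum_congr rfl fun y hy => ?_
    have := (hpos y hy).ne'
    field_simp
  rw [hhalf] at hL
  refine le_trans ?_ hL
  refine mul_le_mul_of_nonneg_left ?_ (by norm_num)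
  rw [hA, hB]
  have hS : 0 ≤ ∑ y ∈ univ.image Y, (N1 y + N0 y) * ‖f y‖ ^ 2 :=
    Finset.sum_nonneg fun y hy => mul_nonneg (hpos y hy).le (sq_nonneg _)
  rcases hS.eq_or_lt with h | h
  · rw [← h, div_zero]
    exact Finset.sum_nonneg fun y hy => div_nonneg (sq_nonneg _) (hpos y hy).le
  · rw [div_le_iff₀ h]
    exact hCS

end Pool.Agent.Helper31.GA
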